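import Pool.Agent.TH116.ZC.Single

/-!
# Independence of the Chow-Kunneth filtration just below the middle codimension

`𝒱` is a class of smooth projective geometrically irreducible varieties over the field `k` closed
under products (for example all of them), `C` the Chow groups with rational coefficients (in the
form of their formal properties, `IsChowProj`) and `H` a Weil cohomology theory (`IsWeilProj`).
`MurreC H X` says that for all `i` and `n` the step `F^n CH^i(X)` is the same for all Chow-Kunneth
decompositions of `X`.

The hypothesis `HasGenericCurves` is a known fact over uncountable algebraically closed fields: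
exterior products with generic zero-cycles of degree zero on generic curves are injective (see the
argument in its comment).

(1) All steps `F^n CH^i(X)`, for all `X`, are independent of the Chow-Kunneth decomposition if and only
if the step `F^0 CH^i(X)` is for all `X` of odd dimension `2 i + 1`.

(2) All `X` have Chow-Kunneth decompositions, the filtrations are independent of them and
homologically trivial self-correspondences of degree zero are nilpotent if and only if the Kunneth
standard conjecture holds and, for all `X` of odd dimension `2 i + 1`, each self-correspondence of
degree zero of `X` which acts as zero on `H^j(X)` for `j ≠ 2 i + 1` is locally nilpotent on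
`CH^i(X)`.

Proof. (1) If `F^0 CH^i(X)` does not depend on the decomposition, then `π_j` acts as zero on `CH^i(X)`
for `j > 2 i` (conjugate with `1 + n`, where `n` has square zero and maps a class of weight `2 i` to
a class of weight `j`). If `y = (π_j)_* x ≠ 0` for some `X`, `x ∈ CH^i(X)` and `j > 2 i + 1`, then
`y × t ≠ 0` for a generic zero-cycle `t` of degree zero on a curve `T`; for a suitable Chow-Kunneth
decomposition of `X × T` it has weight `j + 1` and codimension `i + 1`. So one reduces to
`j = 2 i + 1`. Taking exterior products with points of curves or with curves one reduces to
`dim X = 2 i + 1`. Hence `F^0 CH^i(X) = CH^i(X)` for all `X`, and this implies independence of all steps.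
(2) If (C) holds for all `X`, then correspondences do not raise weights, so `γ` as in (2) acts
triangularly on `CH^i(X)`, which only has weights `≤ 2 i`, with nilpotent diagonal terms. Conversely,
apply the condition to `Δ × γ × Δ` on `X × X × T`, `T` a curve, and to `π_(2 i + 1)`.
-/

open CategoryTheory AlgebraicGeometry

set_option autoImplicit false

universe u v w

namespace Pool.Agent.Results.MP_10f4af_ag.BelowTheMiddle

open Pool.Agent.H914 Pool.Agent.W492.BB Pool.Agent.TH133 Pool.Agent.TH116.ZC

/-- Over an uncountable algebraically closed field (used through `HasGenericCurves`): all steps of
the filtrations of all `X` are independent of the Chow-Kunneth decomposition if and only if the step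
`F^0 CH^i(X)` is, for `dim X = 2 i + 1`; and (A), (C) and the nilpotence of homologically trivial
correspondences hold for all `X` if and only if the Kunneth standard conjecture and nilpotence
just below the middle codimension hold. -/
theorem result {k : Type u} [Field k] {𝒱 : VarClass k} (C : TheoryData.{u, v, 0} 𝒱 ℚ)
    [IsChowProj C] {K : Type w} [Field K] (H : WeilTheoryData.{u, v, w} C K) [IsWeilProj H]
    (hE : HasGenericCurves C) :
    ((∀ X : 𝒱.Obj, MurreC H X) ↔ ∀ (X : 𝒱.Obj) (i : ℕ), X.dim = 2 * i + 1 →
      ∀ π π', IsCK H X π → IsCK H X π' → ckFil C π i 0 = ckFil C π' i 0) ∧
    ((∀ X : 𝒱.Obj, (∃ π : ℕ → C.A (X.prod X), IsCK H X π) ∧ MurreC H X ∧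
      HomTrivialNilpotent H X) ↔
      KunnethConjecture H ∧ ∀ X : 𝒱.Obj, NilpotentBelowMiddleCodim H X) :=
  ⟨murreC_iff_belowMiddle hE, murreAC_iff hE⟩

end Pool.Agent.Results.MP_10f4af_ag.BelowTheMiddle
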