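import Pool.Agent.TH117.CV.Murre

/-!
# Independence of the Chow-Kunneth filtration for constant varieties over function fields

`𝒱₀` is a class of smooth projective geometrically irreducible varieties over the field `k₀` closed
under products, `C₀` the Chow groups with rational coefficients (in the form of their formal
properties, `IsChowProj`) and `H₀` a Weil cohomology theory (`IsWeilProj`) with graded commutative
cup product. Assume the Kunneth and the Lefschetz standard conjectures for `𝒱₀`. Let `B` be a
variety of `𝒱₀` such that homological and rational equivalence agree on `X × B` for all `X` in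
`𝒱₀`, and let `k = k₀(B)`.

Then, for every Chow-Kunneth decomposition of a constant variety `X_k = X ×_{k₀} k`, `X` in `𝒱₀`, the
step `F^n CH^i(X_k)` of the induced filtration is the image, under the restriction
`CH^i(X × B) → CH^i(X_k)` to the generic fibre, of the classes whose Kunneth components have degree
at least `n` in `B`. In particular it does not depend on the decomposition.

The proof is based on the one of `MP_f4876d_ag.ConstantVarieties`: there is a Bloch-Beilinson
filtration for the constant varieties, it is given by the Kunneth components, and it is induced by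
each Chow-Kunneth decomposition.
-/

open CategoryTheory AlgebraicGeometry

set_option autoImplicit false

universe u v v' w

namespace Pool.Agent.Results.MP_10f4af_ag.ConstantVarieties

open Pool.Agent.H914 Pool.Agent.W492.BB Pool.Agent.TH133 Pool.Agent.TH613.MC Pool.Agent.TH117.CV

/-- Assume the Kunneth and the Lefschetz standard conjectures for the varieties of `𝒱₀` over `k₀`,
and that homological and rational equivalence agree on all `X × B`. Let `k = k₀(B)`. Then all
Chow-Kunneth decompositions of a constant variety `X_k` induce the same filtration, namely the one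
given by the degree in `B` of the Kunneth components of lifts to `X × B`; and all varieties over `k`
isomorphic to constant varieties satisfy the conjecture (C) of Murre. -/
theorem result {k₀ : Type u} [Field k₀] {𝒱₀ : VarClass k₀} (C₀ : TheoryData.{u, v, 0} 𝒱₀ ℚ)
    [IsChowProj C₀] {K : Type w} [Field K] (H₀ : WeilTheoryData.{u, v, w} C₀ K) [IsWeilProj H₀]
    (hcomm : GradedCommutative H₀) (hK : KunnethConjecture H₀) (hL : LefschetzInverse H₀)
    (B : 𝒱₀.Obj) (hR : ∀ X : 𝒱₀.Obj, HomEqRat H₀ (X.prod B))
    {k : Type u} [Field k] {𝒱 : VarClass k} (C : TheoryData.{u, v', 0} 𝒱 ℚ) [IsChowProj C]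
    (H : WeilTheoryData.{u, v', w} C K) [IsWeilProj H] (S : ConstantVarieties H₀ B H) :
    (∀ (X : 𝒱₀.Obj) (π : ℕ → C.A ((S.Φ.ob X).prod (S.Φ.ob X))), IsCK H (S.Φ.ob X) π →
      ∀ (i n : ℕ) (y : C.A (S.Φ.ob X)), InStep π i n y ↔
        ∃ z : C₀.A (X.prod B), HasDegreeInBase H₀ i n z ∧ S.ρ.on z = y) ∧
    ∀ (Y : 𝒱.Obj) (π π' : ℕ → C.A (Y.prod Y)), IsCK H Y π → IsCK H Y π' →
      ∀ (i n : ℕ) (y : C.A Y), InStep π i n y ↔ InStep π' i n y :=
  ⟨fun X π hπ i n y => (inStep_iff π i n y).trans
      (mem_ckFil_constant S.data hcomm hK hL hR X hπ i n y),
    fun Y π π' hπ hπ' i n y => by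
      rw [inStep_iff, inStep_iff,
        (murre_constant S.data hcomm hK hL hR Y).2.2.2.1 π π' hπ hπ' i n]⟩

end Pool.Agent.Results.MP_10f4af_ag.ConstantVarieties
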