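import Pool.Agent.TH133.Murre

/-!
# Murre's conjecture (C) is equivalent to the first half of Murre's conjecture (B)

`𝒱` is a class of smooth projective geometrically irreducible varieties over the field `k` closed
under products (for example all of them), `C` the Chow groups with rational coefficients (in the
form of their formal properties, `IsChowProj`) and `H` a Weil cohomology theory (`IsWeilProj`).

For a variety `X`:

* `MurreC H X`: the filtration `F^n CH^i(X) = (π_{2i-n} + ⋯ + π_0)_* CH^i(X)` does not depend on
  the Chow-Kunneth decomposition `π` of `X`, for all `i` and `n`;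
* `MurreC0 H X`: this holds for `n = 0` (and all `i`);
* `MurreB0 H X`: `F^0 CH^i(X) = CH^i(X)` for all Chow-Kunneth decompositions of `X` and all `i`.

(For a variety without Chow-Kunneth decomposition they are all true.)

It was known that the vanishing statement `MurreB0` for `X × X` implies `MurreC` for `X`. Here it is
shown that, conversely, independence implies the vanishing: if `F^0 CH^i(X)` does not depend on the
Chow-Kunneth decomposition of `X` then it is all of `CH^i(X)`. Hence the conjecture (C), for all
varieties, is equivalent to the first half of (B) for all varieties and all Chow-Kunneth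
decompositions; and also to the independence of `F^0` alone.

Idea: let `π_j` act nontrivially on `CH^l(X)` for some `j > 2l`, and let `α = (π_j)_* α ≠ 0`. Let
`u`, `v` be dual classes (multiples of powers of a hyperplane section), of codimensions `l` and
`dim X - l`. The correspondence `n = π_j ∘ (v × α) ∘ π_{2l}` has square zero, and it acts as zero on
the cohomology. Conjugation by `1 + n` yields another Chow-Kunneth decomposition, whose `F^0 CH^l(X)`
contains `(π_{2l})_* u + α`. This class is not in `F^0 CH^l(X)` for the given decomposition.
-/

open CategoryTheory AlgebraicGeometry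

set_option autoImplicit false

universe u v w

namespace Pool.Agent.Results.MP_10f4af_ag.IndependenceIsExhaustion

open Pool.Agent.H914 Pool.Agent.W492.BB Pool.Agent.TH133

/-- For every `X`, the group `F^0 CH^i(X)` is independent of the Chow-Kunneth decomposition for all
`i` if and only if it is always equal to `CH^i(X)`. Hence the conjecture (C) for all varieties is
equivalent to the first half of the conjecture (B) for all varieties. -/
theorem result {k : Type u} [Field k] {𝒱 : VarClass k} (C : TheoryData.{u, v, 0} 𝒱 ℚ)
    [IsChowProj C] {K : Type w} [Field K] (H : WeilTheoryData.{u, v, w} C K) [IsWeilProj H] :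
    (∀ X : 𝒱.Obj, MurreC0 H X ↔ MurreB0 H X) ∧
      ((∀ X : 𝒱.Obj, MurreC H X) ↔ ∀ X : 𝒱.Obj, MurreB0 H X) := by
  have h1 : ∀ X : 𝒱.Obj, MurreC0 H X ↔ MurreB0 H X := fun X =>
    ⟨murreB0_of_C0 X, fun h π π' hπ hπ' i => by rw [h π hπ i, h π' hπ' i]⟩
  exact ⟨h1, fun h X => (h1 X).1 fun π π' hπ hπ' i => h X π π' hπ hπ' i 0,
    fun h X => murreC_of_B0 X (h _)⟩

end Pool.Agent.Results.MP_10f4af_ag.IndependenceIsExhaustion
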